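import Pool.Agent.Q203.ShiftC0

/-!
# The resolvent condition does not imply stability of an orbit
-/

namespace Pool.Agent.Results.MP_ec63c8_an.ShiftGroup

open Filter Topology MeasureTheory

/-- The quantity `∫ ‖R(a + is) x‖² ds`, with the resolvent written as a Laplace transform. -/
noncomputable def resolventIntegral {X : Type} [NormedAddCommGroup X] [NormedSpace ℂ X]
    (T : ℝ → (X →L[ℂ] X)) (x : X) (a : ℝ) : ENNReal :=
  ∫⁻ s : ℝ, ((‖∫ t in Set.Ioi (0 : ℝ),
    Complex.exp (-(((a : ℂ) + (s : ℂ) * Complex.I) * (t : ℂ))) • T t x‖₊ : ENNReal)) ^ 2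

/-- There is a strongly continuous group of isometries on a complex Banach space and a vector
whose resolvent integrals are bounded uniformly in `a > 0`, so that condition `(∗)` holds, although
the orbit of the vector has constant nonzero norm and in particular is not stable. -/
theorem result : ∃ (X : Type) (_ : NormedAddCommGroup X) (_ : NormedSpace ℂ X)
    (_ : CompleteSpace X) (T : ℝ → (X →L[ℂ] X)) (x : X),
    T 0 = 1 ∧ (∀ s t : ℝ, T (s + t) = T s * T t) ∧ (∀ y : X, Continuous (fun t : ℝ => T t y)) ∧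
    (∀ (t : ℝ) (y : X), ‖T t y‖ = ‖y‖) ∧ x ≠ 0 ∧
    (∃ C : NNReal, ∀ a : ℝ, 0 < a → resolventIntegral T x a ≤ C) ∧
    Tendsto (fun a : ℝ => ENNReal.ofReal a * resolventIntegral T x a) (𝓝[>] (0 : ℝ)) (𝓝 0) ∧
    ¬ Tendsto (fun t : ℝ => T t x) atTop (𝓝 0) := by
  refine ⟨ZeroAtInftyContinuousMap ℝ ℂ, inferInstance, inferInstance, inferInstance,
    Pool.Agent.Q203.ShiftC0.T, Pool.Agent.Q203.ShiftC0.f₀, Pool.Agent.Q203.ShiftC0.T_zero,
    Pool.Agent.Q203.ShiftC0.T_add, Pool.Agent.Q203.ShiftC0.T_cont,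
    Pool.Agent.Q203.ShiftC0.T_isometry, ?_, ⟨_, Pool.Agent.Q203.ShiftC0.lintegral_bound⟩,
    Pool.Agent.Q203.ShiftC0.condition_holds, Pool.Agent.Q203.ShiftC0.not_stable⟩
  intro h
  apply Pool.Agent.Q203.ShiftC0.not_stable
  rw [h]
  simp

end Pool.Agent.Results.MP_ec63c8_an.ShiftGroup
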